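import Mathlib

set_option autoImplicit false

namespace Pool.Agent.Results.MP_e73581_co.NonNested

open Matrix

/-- The minimum rank distance of a set of square matrices: the least rank of a difference of two
distinct elements. -/
noncomputable def minDist {F : Type} [Field F] {n : ℕ} (C : Set (Matrix (Fin n) (Fin n) F)) : ℕ :=
  sInf {r | ∃ A ∈ C, ∃ B ∈ C, A ≠ B ∧ r = (A - B).rank}

/-- `C` is an MRD code of minimum distance `d` in `M_n(F)`: it has at least two elements, its
minimum distance is `d`, and it has exactly `|F| ^ (n (n - d + 1))` elements. -/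
def IsMRD {F : Type} [Field F] [Fintype F] {n : ℕ} (d : ℕ)
    (C : Set (Matrix (Fin n) (Fin n) F)) : Prop :=
  2 ≤ C.ncard ∧ minDist C = d ∧ C.ncard = Fintype.card F ^ (n * (n - d + 1))

/-! ### Bit vectors -/

/-- The vector of the four lowest binary digits of `x`. -/
def vec (x : ℕ) : Fin 4 → ZMod 2 := fun j => if x.testBit j.val then 1 else 0

theorem vec_xor (x y : ℕ) : vec (Nat.xor x y) = vec x + vec y := by
  funext j
  have h : (Nat.xor x y).testBit j.val = ((x.testBit j.val) ^^ (y.testBit j.val)) :=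
    Nat.testBit_xor x y j.val
  simp only [vec, Pi.add_apply, h]
  cases x.testBit j.val <;> cases y.testBit j.val <;> decide

theorem vec_surj : ∀ v : Fin 4 → ZMod 2, ∃ x : ℕ, x < 16 ∧ vec x = v := by
  decide

theorem vec_ne_zero : ∀ x : ℕ, x < 16 → x ≠ 0 → vec x ≠ 0 := by
  decide

theorem vec_ne : ∀ x : ℕ, x < 16 → ∀ y : ℕ, y < 16 → x ≠ y → vec x ≠ vec y := by
  decide

/-! ### The finite check -/

/-- Second row of the element of the spread set with first row `t`. -/
def s1 (t : ℕ) : ℕ :=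
  Nat.xor (cond (t.testBit 0) 2 0) (Nat.xor (cond (t.testBit 1) 12 0)
    (Nat.xor (cond (t.testBit 2) 1 0) (cond (t.testBit 3) 4 0)))

/-- Third row. -/
def s2 (t : ℕ) : ℕ :=
  Nat.xor (cond (t.testBit 0) 4 0) (Nat.xor (cond (t.testBit 1) 8 0)
    (Nat.xor (cond (t.testBit 2) 10 0) (cond (t.testBit 3) 1 0)))

/-- Fourth row. -/
def s3 (t : ℕ) : ℕ :=
  Nat.xor (cond (t.testBit 0) 8 0) (Nat.xor (cond (t.testBit 1) 1 0)
    (Nat.xor (cond (t.testBit 2) 2 0) (cond (t.testBit 3) 6 0)))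

/-- Is `r` in `{0, a, b, a xor b}`? -/
def inSpan (a b r : ℕ) : Bool :=
  Nat.beq r 0 || (Nat.beq r a || (Nat.beq r b || Nat.beq r (Nat.xor a b)))

/-- Is `a ≠ 0`, `b ≠ 0`, `a ≠ b`, both below 16 and are all `r_i` in the span of `a, b`? -/
def okPair (a b r0 r1 r2 r3 : ℕ) : Bool :=
  (!(Nat.beq a 0)) && ((!(Nat.beq b 0)) && ((!(Nat.beq a b)) && ((Nat.ble a 15) && ((Nat.ble b 15) &&
    (inSpan a b r0 && (inSpan a b r1 && (inSpan a b r2 && inSpan a b r3)))))))

/-- A second vector to try. -/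
def other (a : ℕ) : ℕ := cond (Nat.beq a 1) 2 1

/-- Some candidates for the pair spanning the row space. -/
def rankLe2 (r0 r1 r2 r3 : ℕ) : Bool :=
  okPair r0 r1 r0 r1 r2 r3 || (okPair r0 r2 r0 r1 r2 r3 || (okPair r0 r3 r0 r1 r2 r3 ||
    (okPair r1 r2 r0 r1 r2 r3 || (okPair r1 r3 r0 r1 r2 r3 || (okPair r2 r3 r0 r1 r2 r3 ||
      (okPair r0 (other r0) r0 r1 r2 r3 || (okPair r1 (other r1) r0 r1 r2 r3 ||
        (okPair r2 (other r2) r0 r1 r2 r3 || okPair r3 (other r3) r0 r1 r2 r3))))))))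

/-- The check for one coset. -/
def chk (m1 m2 m3 : ℕ) : Bool :=
  (Nat.beq m1 0 && (Nat.beq m2 0 && Nat.beq m3 0)) ||
    (List.range 16).any fun t =>
      rankLe2 t (Nat.xor m1 (s1 t)) (Nat.xor m2 (s2 t)) (Nat.xor m3 (s3 t))

theorem chk_all : ((List.range 16).all fun m1 => (List.range 16).all fun m2 =>
    (List.range 16).all fun m3 => chk m1 m2 m3) = true := by
  decide +kernel

/-! ### The spread set and the code -/

/-- Shorthand for 4x4 binary matrices. -/
abbrev Mat := Matrix (Fin 4) (Fin 4) (ZMod 2)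

/-- The elements of a proper semifield spread set of order 16, by first row. -/
def spread : (Fin 4 → ZMod 2) →ₗ[ZMod 2] Mat where
  toFun v := !![v 0, v 1, v 2, v 3; v 2, v 0, v 1 + v 3, v 1; v 3, v 2, v 0, v 1 + v 2;
    v 1, v 2 + v 3, v 3, v 0]
  map_add' v w := by
    ext i j
    fin_cases i <;> fin_cases j <;> simp <;> ring
  map_smul' c v := by
    ext i j
    fin_cases i <;> fin_cases j <;> simp <;> ring

/-- The four parity checks. -/
def par : Mat →ₗ[ZMod 2] (Fin 4 → ZMod 2) where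
  toFun M := ![M 0 0 + M 1 1 + M 2 2 + M 3 3, M 0 1 + M 1 2 + M 1 3 + M 2 3 + M 3 0,
    M 0 2 + M 1 0 + M 2 1 + M 2 3 + M 3 1, M 0 3 + M 1 2 + M 2 0 + M 3 1 + M 3 2]
  map_add' M N := by
    ext i
    fin_cases i <;> simp <;> ring
  map_smul' c M := by
    ext i
    fin_cases i <;> simp <;> ring

/-- The trace form. -/
def tf : Mat →ₗ[ZMod 2] Mat →ₗ[ZMod 2] ZMod 2 :=
  LinearMap.mk₂ (ZMod 2) (fun M N => ∑ i, ∑ j, M i j * N i j)
    (by intro M M' N; simp [add_mul, Finset.sum_add_distrib])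
    (by intro c M N; simp [Finset.mul_sum, mul_assoc])
    (by intro M N N'; simp [mul_add, Finset.sum_add_distrib])
    (by intro c M N; simp [Finset.mul_sum]; congr; ext i; congr; ext j; ring)

theorem tf_apply (M N : Mat) : tf M N = ∑ i, ∑ j, M i j * N i j := rfl

theorem tf_spread (M : Mat) (v : Fin 4 → ZMod 2) :
    tf M (spread v) = v 0 * par M 0 + v 1 * par M 1 + v 2 * par M 2 + v 3 * par M 3 := by
  rw [tf_apply]
  simp [spread, par, Fin.sum_univ_four]
  ring

theorem par_surj : Function.Surjective par := by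
  intro v
  refine ⟨!![v 0, v 1, v 2, v 3; 0, 0, 0, 0; 0, 0, 0, 0; 0, 0, 0, 0], ?_⟩
  ext i
  fin_cases i <;> simp [par]

theorem finrank_ker_par : Module.finrank (ZMod 2) (LinearMap.ker par) = 12 := by
  have h := LinearMap.finrank_range_add_finrank_ker par
  rw [LinearMap.range_eq_top.mpr par_surj] at h
  simp [Module.finrank_matrix] at h
  omega

/-- The code. -/
def code : AddSubgroup Mat := (LinearMap.ker par).toAddSubgroup

theorem mem_code (M : Mat) : M ∈ code ↔ par M = 0 := by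
  simp [code]

theorem ncard_code : (code : Set Mat).ncard = 2 ^ 12 := by
  have h : Nat.card (LinearMap.ker par) = 2 ^ 12 := by
    rw [Module.natCard_eq_pow_finrank (K := ZMod 2), finrank_ker_par]
    simp
  rw [← h]
  rfl

/-! ### Rank facts -/

theorem zmod2_cases (x : ZMod 2) : x = 0 ∨ x = 1 := by
  revert x; decide

/-- A matrix that kills two distinct nonzero vectors over the two-element field has rank at most 2. -/
theorem rank_le_two_of_kills (M : Mat) (w1 w2 : Fin 4 → ZMod 2) (h1 : w1 ≠ 0) (h2 : w2 ≠ 0)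
    (h12 : w1 ≠ w2) (k1 : M *ᵥ w1 = 0) (k2 : M *ᵥ w2 = 0) : M.rank ≤ 2 := by
  have hli : LinearIndependent (ZMod 2) ![w1, w2] := by
    rw [LinearIndependent.pair_iff]
    intro s t hst
    rcases zmod2_cases s with rfl | rfl <;> rcases zmod2_cases t with rfl | rfl
    · exact ⟨rfl, rfl⟩
    · exfalso; apply h2; simpa using hst
    · exfalso; apply h1; simpa using hst
    · exfalso
      apply h12
      simp only [one_smul] at hst
      have : w1 = - w2 := by rw [← add_eq_zero_iff_eq_neg]; exact hst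
      rw [this]
      ext j
      simp
  have hker : 2 ≤ Module.finrank (ZMod 2) (LinearMap.ker M.mulVecLin) := by
    have hsub : Submodule.span (ZMod 2) (Set.range ![w1, w2]) ≤ LinearMap.ker M.mulVecLin := by
      rw [Submodule.span_le]
      rintro x ⟨i, rfl⟩
      fin_cases i
      · simpa using k1
      · simpa using k2
    have := Submodule.finrank_mono hsub
    rw [finrank_span_eq_card hli] at this
    simpa using this
  have h := LinearMap.finrank_range_add_finrank_ker M.mulVecLin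
  have h4 : Module.finrank (ZMod 2) (Fin 4 → ZMod 2) = 4 := by simp
  rw [h4] at h
  unfold Matrix.rank
  omega

theorem rank_one_check : ∀ a w : Fin 4 → ZMod 2, par (Matrix.vecMulVec a w) = 0 → a = 0 ∨ w = 0 := by
  decide +kernel

/-- Every nonzero element of the code has rank at least 2. -/
theorem two_le_rank (D : Mat) (hD : D ∈ code) (h0 : D ≠ 0) : 2 ≤ D.rank := by
  by_contra hlt
  have hr : D.rank ≤ 1 := by omega
  rw [Matrix.rank_eq_finrank_span_row] at hr
  rw [finrank_le_one_iff] at hr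
  obtain ⟨v, hv⟩ := hr
  have hrow : ∀ i, ∃ c : ZMod 2, c • (v : Fin 4 → ZMod 2) = D i := by
    intro i
    obtain ⟨c, hc⟩ := hv ⟨D.row i, Submodule.subset_span ⟨i, rfl⟩⟩
    exact ⟨c, congrArg Subtype.val hc⟩
  choose a ha using hrow
  have hDa : D = Matrix.vecMulVec a (v : Fin 4 → ZMod 2) := by
    ext i j
    rw [Matrix.vecMulVec_apply, ← ha i]
    simp
  rw [mem_code, hDa] at hD
  rcases rank_one_check a v hD with h | h
  · apply h0
    rw [hDa, h]
    ext i j
    simp [Matrix.vecMulVec_apply]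
  · apply h0
    rw [hDa, h]
    ext i j
    simp [Matrix.vecMulVec_apply]

/-- A codeword of rank 2. -/
def low : Mat := !![0, 0, 0, 0; 0, 0, 0, 0; 0, 0, 1, 0; 0, 0, 0, 1]

theorem low_mem : low ∈ code := by
  rw [mem_code]
  decide

theorem low_ne : low ≠ 0 := by
  decide

theorem low_rank : low.rank ≤ 2 := by
  apply rank_le_two_of_kills low ![1, 0, 0, 0] ![0, 1, 0, 0] <;> decide

theorem minDist_code : minDist (code : Set Mat) = 2 := by
  unfold minDist
  apply le_antisymm
  · apply Nat.sInf_le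
    refine ⟨low, low_mem, 0, code.zero_mem, low_ne, ?_⟩
    rw [sub_zero]
    exact le_antisymm (two_le_rank low low_mem low_ne) low_rank
  · apply le_csInf
    · exact ⟨_, low, low_mem, 0, code.zero_mem, low_ne, rfl⟩
    · rintro r ⟨A, hA, B, hB, hAB, rfl⟩
      exact two_le_rank _ (code.sub_mem hA hB) (sub_ne_zero.mpr hAB)

theorem isMRD_code : IsMRD 2 (code : Set Mat) := by
  refine ⟨?_, minDist_code, ?_⟩
  · rw [ncard_code]; norm_num
  · rw [ncard_code]; simp

/-! ### No MRD subcode of distance three -/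

/-- The duality step: an additive code of size `2^8` all of whose nonzero elements have rank at
least three is not orthogonal to a nonzero matrix whose rows lie in a plane. -/
theorem key (C' : AddSubgroup Mat) (hcard : Nat.card C' = 2 ^ 8)
    (hrank : ∀ M ∈ C', M ≠ 0 → 3 ≤ M.rank) (R : Mat) (hR : R ≠ 0)
    (w1 w2 : Fin 4 → ZMod 2) (h1 : w1 ≠ 0) (h2 : w2 ≠ 0) (h12 : w1 ≠ w2)
    (hrows : ∀ i, R i = 0 ∨ R i = w1 ∨ R i = w2 ∨ R i = w1 + w2)
    (horth : ∀ M ∈ C', tf M R = 0) : False := by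
  let φ : C' → (Fin 4 → ZMod 2) × (Fin 4 → ZMod 2) := fun M => (M.1 *ᵥ w1, M.1 *ᵥ w2)
  have hinj : Function.Injective φ := by
    intro M N hMN
    have e1 : M.1 *ᵥ w1 = N.1 *ᵥ w1 := congrArg Prod.fst hMN
    have e2 : M.1 *ᵥ w2 = N.1 *ᵥ w2 := congrArg Prod.snd hMN
    by_contra hne
    have hne' : M.1 - N.1 ≠ 0 := fun h => hne (Subtype.ext (sub_eq_zero.mp h))
    have hr := hrank _ (C'.sub_mem M.2 N.2) hne'
    have hr2 := rank_le_two_of_kills (M.1 - N.1) w1 w2 h1 h2 h12
      (by rw [Matrix.sub_mulVec, e1, sub_self]) (by rw [Matrix.sub_mulVec, e2, sub_self])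
    omega
  have hcard2 : Nat.card ((Fin 4 → ZMod 2) × (Fin 4 → ZMod 2)) = 2 ^ 8 := by
    simp
  have hbij : Function.Bijective φ := by
    apply (Nat.bijective_iff_injective_and_card φ).mpr
    exact ⟨hinj, by rw [hcard, hcard2]⟩
  have hab : ∀ i, ∃ p : ZMod 2 × ZMod 2, R i = p.1 • w1 + p.2 • w2 := by
    intro i
    rcases hrows i with h | h | h | h
    · exact ⟨(0, 0), by simpa using h⟩
    · exact ⟨(1, 0), by simpa using h⟩
    · exact ⟨(0, 1), by simpa using h⟩
    · exact ⟨(1, 1), by simpa using h⟩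
  choose p hp using hab
  have htf : ∀ M : Mat, tf M R = ∑ i, ((p i).1 * (M *ᵥ w1) i + (p i).2 * (M *ᵥ w2) i) := by
    intro M
    rw [tf_apply]
    apply Finset.sum_congr rfl
    intro i _
    have : ∀ j, R i j = (p i).1 * w1 j + (p i).2 * w2 j := by
      intro j
      rw [hp i]
      simp
    simp only [this, Matrix.mulVec, dotProduct, mul_add, Finset.sum_add_distrib, Finset.mul_sum]
    congr 1
    · apply Finset.sum_congr rfl
      intro j _
      ring
    · apply Finset.sum_congr rfl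
      intro j _
      ring
  have hex : ∃ i, (p i).1 ≠ 0 ∨ (p i).2 ≠ 0 := by
    by_contra hcon
    push Not at hcon
    apply hR
    ext i j
    rw [hp i, (hcon i).1, (hcon i).2]
    simp
  obtain ⟨i, hi | hi⟩ := hex
  · obtain ⟨M, hM⟩ := hbij.2 (Pi.single i 1, 0)
    have e1 : M.1 *ᵥ w1 = Pi.single i 1 := congrArg Prod.fst hM
    have e2 : M.1 *ᵥ w2 = 0 := congrArg Prod.snd hM
    have := horth M.1 M.2
    rw [htf, e1, e2] at this
    simp [Pi.single_apply] at this
    exact hi this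
  · obtain ⟨M, hM⟩ := hbij.2 (0, Pi.single i 1)
    have e1 : M.1 *ᵥ w1 = 0 := congrArg Prod.fst hM
    have e2 : M.1 *ᵥ w2 = Pi.single i 1 := congrArg Prod.snd hM
    have := horth M.1 M.2
    rw [htf, e1, e2] at this
    simp [Pi.single_apply] at this
    exact hi this

theorem inSpan_vec (a b r : ℕ) (h : inSpan a b r = true) :
    vec r = 0 ∨ vec r = vec a ∨ vec r = vec b ∨ vec r = vec a + vec b := by
  unfold inSpan at h
  simp only [Bool.or_eq_true] at h
  rcases h with h | h | h | h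
  · left
    rw [Nat.eq_of_beq_eq_true h]
    decide
  · right; left; rw [Nat.eq_of_beq_eq_true h]
  · right; right; left; rw [Nat.eq_of_beq_eq_true h]
  · right; right; right; rw [Nat.eq_of_beq_eq_true h, vec_xor]

theorem okPair_vec (a b r0 r1 r2 r3 : ℕ) (h : okPair a b r0 r1 r2 r3 = true) :
    ∃ w1 w2 : Fin 4 → ZMod 2, w1 ≠ 0 ∧ w2 ≠ 0 ∧ w1 ≠ w2 ∧
      (∀ r ∈ ({r0, r1, r2, r3} : Set ℕ), vec r = 0 ∨ vec r = w1 ∨ vec r = w2 ∨ vec r = w1 + w2) := by
  unfold okPair at h
  simp only [Bool.and_eq_true, Bool.not_eq_true', Nat.ble_eq] at h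
  obtain ⟨ha, hb, hab, ha15, hb15, h0, h1, h2, h3⟩ := h
  have ha' : a ≠ 0 := by
    rintro rfl
    simp at ha
  have hb' : b ≠ 0 := by
    rintro rfl
    simp at hb
  have hab' : a ≠ b := by
    rintro rfl
    simp at hab
  refine ⟨vec a, vec b, vec_ne_zero a (by omega) ha', vec_ne_zero b (by omega) hb',
    vec_ne a (by omega) b (by omega) hab', ?_⟩
  rintro r (rfl | rfl | rfl | rfl)
  · exact inSpan_vec _ _ _ h0
  · exact inSpan_vec _ _ _ h1
  · exact inSpan_vec _ _ _ h2
  · exact inSpan_vec _ _ _ h3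

theorem rankLe2_vec (r0 r1 r2 r3 : ℕ) (h : rankLe2 r0 r1 r2 r3 = true) :
    ∃ w1 w2 : Fin 4 → ZMod 2, w1 ≠ 0 ∧ w2 ≠ 0 ∧ w1 ≠ w2 ∧
      (∀ r ∈ ({r0, r1, r2, r3} : Set ℕ), vec r = 0 ∨ vec r = w1 ∨ vec r = w2 ∨ vec r = w1 + w2) := by
  unfold rankLe2 at h
  simp only [Bool.or_eq_true] at h
  rcases h with h | h | h | h | h | h | h | h | h | h <;> exact okPair_vec _ _ _ _ _ _ h

theorem chk_spec (m1 m2 m3 : ℕ) (h1 : m1 < 16) (h2 : m2 < 16) (h3 : m3 < 16) :
    (m1 = 0 ∧ m2 = 0 ∧ m3 = 0) ∨ ∃ t, t < 16 ∧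
      rankLe2 t (Nat.xor m1 (s1 t)) (Nat.xor m2 (s2 t)) (Nat.xor m3 (s3 t)) = true := by
  have h := chk_all
  rw [List.all_eq_true] at h
  have h := h m1 (List.mem_range.mpr h1)
  rw [List.all_eq_true] at h
  have h := h m2 (List.mem_range.mpr h2)
  rw [List.all_eq_true] at h
  have h := h m3 (List.mem_range.mpr h3)
  unfold chk at h
  simp only [Bool.or_eq_true, Bool.and_eq_true, List.any_eq_true, List.mem_range] at h
  rcases h with ⟨g1, g2, g3⟩ | h
  · exact Or.inl ⟨Nat.eq_of_beq_eq_true g1, Nat.eq_of_beq_eq_true g2, Nat.eq_of_beq_eq_true g3⟩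
  · exact Or.inr h

theorem spread_rows : ∀ t : ℕ, t < 16 → (spread (vec t) 0 = vec t ∧ spread (vec t) 1 = vec (s1 t) ∧
    spread (vec t) 2 = vec (s2 t) ∧ spread (vec t) 3 = vec (s3 t)) := by
  decide +kernel

theorem s_lt : ∀ t : ℕ, t < 16 → (s1 t < 16 ∧ s2 t < 16 ∧ s3 t < 16) := by
  decide

theorem xor_lt (x y : ℕ) (hx : x < 16) (hy : y < 16) : Nat.xor x y < 16 :=
  Nat.xor_lt_two_pow (n := 4) hx hy

/-- The covering step: modulo the spread set, every matrix outside it is congruent to a nonzero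
matrix whose rows lie in a plane. -/
theorem cover (N : Mat) (hN : N ∉ LinearMap.range spread) :
    ∃ v : Fin 4 → ZMod 2, ∃ w1 w2 : Fin 4 → ZMod 2, w1 ≠ 0 ∧ w2 ≠ 0 ∧ w1 ≠ w2 ∧
      ∀ i, (N + spread v) i = 0 ∨ (N + spread v) i = w1 ∨ (N + spread v) i = w2 ∨
        (N + spread v) i = w1 + w2 := by
  obtain ⟨n0, hn0, e0⟩ := vec_surj (N 0)
  obtain ⟨n1, hn1, e1⟩ := vec_surj (N 1)
  obtain ⟨n2, hn2, e2⟩ := vec_surj (N 2)
  obtain ⟨n3, hn3, e3⟩ := vec_surj (N 3)
  obtain ⟨q0, q1, q2, q3⟩ := spread_rows n0 hn0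
  obtain ⟨l1, l2, l3⟩ := s_lt n0 hn0
  have hv : ∀ x : Fin 4 → ZMod 2, x + x = 0 := by
    intro x
    ext j
    exact CharTwo.add_self_eq_zero (x j)
  rcases chk_spec (Nat.xor n1 (s1 n0)) (Nat.xor n2 (s2 n0)) (Nat.xor n3 (s3 n0))
    (xor_lt _ _ hn1 l1) (xor_lt _ _ hn2 l2) (xor_lt _ _ hn3 l3) with h | ⟨t, ht, h⟩
  · exfalso
    apply hN
    refine ⟨vec n0, ?_⟩
    obtain ⟨g1, g2, g3⟩ := h
    have f1 : vec n1 = vec (s1 n0) := by
      have : vec n1 + vec (s1 n0) = 0 := by rw [← vec_xor, g1]; decide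
      rw [← hv (vec (s1 n0))] at this
      exact add_right_cancel this
    have f2 : vec n2 = vec (s2 n0) := by
      have : vec n2 + vec (s2 n0) = 0 := by rw [← vec_xor, g2]; decide
      rw [← hv (vec (s2 n0))] at this
      exact add_right_cancel this
    have f3 : vec n3 = vec (s3 n0) := by
      have : vec n3 + vec (s3 n0) = 0 := by rw [← vec_xor, g3]; decide
      rw [← hv (vec (s3 n0))] at this
      exact add_right_cancel this
    funext i
    fin_cases i
    · exact q0.trans e0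
    · exact q1.trans (f1.symm.trans e1)
    · exact q2.trans (f2.symm.trans e2)
    · exact q3.trans (f3.symm.trans e3)
  · obtain ⟨w1, w2, a1, a2, a12, hr⟩ := rankLe2_vec _ _ _ _ h
    obtain ⟨p0, p1, p2, p3⟩ := spread_rows t ht
    refine ⟨vec n0 + vec t, w1, w2, a1, a2, a12, ?_⟩
    have r0 : (N + spread (vec n0 + vec t)) 0 = vec t := by
      rw [map_add]
      change N 0 + (spread (vec n0) 0 + spread (vec t) 0) = vec t
      rw [q0, p0, ← e0, ← add_assoc, hv, zero_add]
    have r1 : (N + spread (vec n0 + vec t)) 1 = vec (Nat.xor (Nat.xor n1 (s1 n0)) (s1 t)) := by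
      rw [map_add]
      change N 1 + (spread (vec n0) 1 + spread (vec t) 1) = _
      rw [q1, p1, ← e1, vec_xor, vec_xor, add_assoc]
    have r2 : (N + spread (vec n0 + vec t)) 2 = vec (Nat.xor (Nat.xor n2 (s2 n0)) (s2 t)) := by
      rw [map_add]
      change N 2 + (spread (vec n0) 2 + spread (vec t) 2) = _
      rw [q2, p2, ← e2, vec_xor, vec_xor, add_assoc]
    have r3 : (N + spread (vec n0 + vec t)) 3 = vec (Nat.xor (Nat.xor n3 (s3 n0)) (s3 t)) := by
      rw [map_add]
      change N 3 + (spread (vec n0) 3 + spread (vec t) 3) = _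
      rw [q3, p3, ← e3, vec_xor, vec_xor, add_assoc]
    intro i
    fin_cases i
    · change (N + spread (vec n0 + vec t)) 0 = 0 ∨ (N + spread (vec n0 + vec t)) 0 = w1 ∨
        (N + spread (vec n0 + vec t)) 0 = w2 ∨ (N + spread (vec n0 + vec t)) 0 = w1 + w2
      rw [r0]
      exact hr _ (by simp)
    · change (N + spread (vec n0 + vec t)) 1 = 0 ∨ (N + spread (vec n0 + vec t)) 1 = w1 ∨
        (N + spread (vec n0 + vec t)) 1 = w2 ∨ (N + spread (vec n0 + vec t)) 1 = w1 + w2
      rw [r1]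
      exact hr _ (by simp)
    · change (N + spread (vec n0 + vec t)) 2 = 0 ∨ (N + spread (vec n0 + vec t)) 2 = w1 ∨
        (N + spread (vec n0 + vec t)) 2 = w2 ∨ (N + spread (vec n0 + vec t)) 2 = w1 + w2
      rw [r2]
      exact hr _ (by simp)
    · change (N + spread (vec n0 + vec t)) 3 = 0 ∨ (N + spread (vec n0 + vec t)) 3 = w1 ∨
        (N + spread (vec n0 + vec t)) 3 = w2 ∨ (N + spread (vec n0 + vec t)) 3 = w1 + w2
      rw [r3]
      exact hr _ (by simp)

theorem no_sub (C' : AddSubgroup Mat) (hsub : C' ≤ code) (hcard : Nat.card C' = 2 ^ 8)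
    (hrank : ∀ M ∈ C', M ≠ 0 → 3 ≤ M.rank) : False := by
  let P : Submodule (ZMod 2) Mat := AddSubgroup.toZModSubmodule 2 C'
  have hmemP : ∀ M, M ∈ P ↔ M ∈ C' := fun M => AddSubgroup.mem_toZModSubmodule 2
  have hP : Module.finrank (ZMod 2) P = 8 := by
    have h1 : Nat.card P = 2 ^ 8 := hcard
    rw [Module.natCard_eq_pow_finrank (K := ZMod 2)] at h1
    simp only [Nat.card_zmod] at h1
    exact Nat.pow_right_injective (le_refl 2) h1
  let g : Mat →ₗ[ZMod 2] Module.Dual (ZMod 2) P := P.subtype.dualMap ∘ₗ tf.flip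
  have hg : ∀ N, N ∈ LinearMap.ker g ↔ ∀ M ∈ C', tf M N = 0 := by
    intro N
    rw [LinearMap.mem_ker]
    constructor
    · intro h M hM
      have := congrArg (fun f => f ⟨M, (hmemP M).mpr hM⟩) h
      simpa [g] using this
    · intro h
      ext M
      simpa [g] using h M.1 ((hmemP _).mp M.2)
  have hker : 8 ≤ Module.finrank (ZMod 2) (LinearMap.ker g) := by
    have h := LinearMap.finrank_range_add_finrank_ker g
    have h2 : Module.finrank (ZMod 2) (LinearMap.range g) ≤ 8 := by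
      calc _ ≤ Module.finrank (ZMod 2) (Module.Dual (ZMod 2) P) := Submodule.finrank_le _
        _ = 8 := by rw [Subspace.dual_finrank_eq, hP]
    have h3 : Module.finrank (ZMod 2) Mat = 16 := by
      simp [Module.finrank_matrix]
    omega
  have hex : ∃ N ∈ LinearMap.ker g, N ∉ LinearMap.range spread := by
    by_contra hcon
    push Not at hcon
    have hle : LinearMap.ker g ≤ LinearMap.range spread := hcon
    have h1 := Submodule.finrank_mono hle
    have h2 := LinearMap.finrank_range_le spread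
    have h3 : Module.finrank (ZMod 2) (Fin 4 → ZMod 2) = 4 := by simp
    omega
  obtain ⟨N, hNker, hNr⟩ := hex
  obtain ⟨v, w1, w2, h1, h2, h12, hrows⟩ := cover N hNr
  refine key C' hcard hrank (N + spread v) ?_ w1 w2 h1 h2 h12 hrows ?_
  · intro h0
    apply hNr
    refine ⟨-v, ?_⟩
    rw [map_neg]
    exact (eq_neg_of_add_eq_zero_left h0).symm
  · intro M hM
    rw [map_add, (hg N).mp hNker M hM, zero_add, tf_spread]
    have := (mem_code M).mp (hsub hM)
    simp [this]

/-- There is an additive MRD code of minimum distance 2 in `M_4(F_2)` containing no additive MRD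
code of minimum distance 3. -/
theorem result : ∃ C : AddSubgroup (Matrix (Fin 4) (Fin 4) (ZMod 2)),
    IsMRD 2 (C : Set (Matrix (Fin 4) (Fin 4) (ZMod 2))) ∧
    ∀ C' : AddSubgroup (Matrix (Fin 4) (Fin 4) (ZMod 2)), C' ≤ C →
      ¬ IsMRD 3 (C' : Set (Matrix (Fin 4) (Fin 4) (ZMod 2))) := by
  refine ⟨code, isMRD_code, ?_⟩
  rintro C' hsub ⟨-, hdist, hcard⟩
  apply no_sub C' hsub
  · have : (C' : Set Mat).ncard = 2 ^ 8 := by rw [hcard]; simp
    rw [← this]
    rfl
  · intro M hM h0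
    rw [← hdist]
    apply Nat.sInf_le
    exact ⟨M, hM, 0, C'.zero_mem, h0, by rw [sub_zero]⟩

end Pool.Agent.Results.MP_e73581_co.NonNested
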